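import Pool.Agent.N623.CS.Stm

/-!
# Project CS, part BOREL: Borel sets are completely Ramsey
-/

set_option autoImplicit false

namespace Pool.Agent.N263.CS

open Set Pool.Agent.N623.CS

theorem rs_le (f : RS) (m : ℕ) : f m ≤ m := by
  have h : Finset.range (f m) ⊆ (Finset.range m).image f.1 := by
    intro v hv
    obtain ⟨i, hi, hiv⟩ := f.2.1 m v (Finset.mem_range.mp hv)
    exact Finset.mem_image.mpr ⟨i, Finset.mem_range.mpr hi, hiv⟩
  have h1 := (Finset.card_le_card h).trans Finset.card_image_le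
  simpa using h1

/-- open sets depend on finitely many letters near each point -/
theorem open_nbhd {X : Set RS} (hX : IsOpen X) (f : RS) (hf : f ∈ X) :
    ∃ n, ∀ f' : RS, (∀ j, j < n → f' j = f j) → f' ∈ X := by
  obtain ⟨U, hU, rfl⟩ := isOpen_induced_iff.mp hX
  obtain ⟨I, u, hu, hIu⟩ := isOpen_pi_iff.mp hU f.1 hf
  refine ⟨I.sup id + 1, fun f' hf' => ?_⟩
  apply hIu
  intro a ha
  have h1 : a ≤ I.sup id := Finset.le_sup (f := id) ha
  have h2 : f'.1 a = f.1 a := hf' a (by omega)
  rw [h2]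
  exact (hu a ha).2

theorem cr_compl {X : Set RS} (hX : CR X) : CR Xᶜ := by
  intro d B
  obtain ⟨h, hh, h1 | h1⟩ := hX d B
  · exact ⟨h, hh, Or.inr fun g hg hc => hc (h1 g hg)⟩
  · exact ⟨h, hh, Or.inl fun g hg => h1 g hg⟩

theorem cr_open (hO : S_OPEN) {X : Set RS} (hX : IsOpen X) : CR X := by
  intro d B
  obtain ⟨h, hh, h1⟩ := hO d {g | g * B ∈ X} (by
    intro g hg
    obtain ⟨n, hn⟩ := open_nbhd hX (g * B) hg
    refine ⟨n, fun g' hg' => hn (g' * B) fun j hj => ?_⟩
    rw [RS.mul_apply, RS.mul_apply]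
    exact hg' _ (lt_of_le_of_lt (rs_le B j) hj))
  exact ⟨h, hh, h1⟩

theorem cr_iUnion (hC : S_CUT) (hFac : S_FAC) (hFus : S_FUS) (hO : S_OPEN) (X : ℕ → Set RS)
    (hX : ∀ i, CR (X i)) : CR (⋃ i, X i) := by
  intro d B
  let Dec : ℕ → ℕ → RS → Prop := fun i p A => (∀ g ∈ K p, g * A ∈ X i) ∨ (∀ g ∈ K p, g * A ∉ X i)
  have hher : ∀ i p A, ∀ h ∈ K p, Dec i p A → Dec i p (h * A) := by
    intro i p A h hh hD
    rcases hD with hD | hD
    · left
      intro g hg
      rw [← mul_assoc]
      exact hD _ (K_mul hg hh)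
    · right
      intro g hg
      rw [← mul_assoc]
      exact hD _ (K_mul hg hh)
  obtain ⟨h, hh, hdec⟩ := hFus (fun q p A => ∀ i ≤ q, Dec i p A) (by
    intro q p A
    have : ∀ n, ∃ h ∈ K p, ∀ i < n, Dec i p (h * A) := by
      intro n
      induction n with
      | zero => exact ⟨1, one_mem_K p, fun i hi => absurd hi (Nat.not_lt_zero i)⟩
      | succ n ih =>
        obtain ⟨h, hh, hn⟩ := ih
        obtain ⟨h', hh', hn'⟩ := hX n p (h * A)
        refine ⟨h' * h, K_mul hh' hh, fun i hi => ?_⟩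
        rcases Nat.lt_succ_iff_lt_or_eq.mp hi with hi | hi
        · rw [mul_assoc]
          exact hher i p _ h' hh' (hn i hi)
        · subst hi
          rcases hn' with hn' | hn'
          · left
            intro g hg
            have := hn' g hg
            simpa [mul_assoc] using this
          · right
            intro g hg
            have := hn' g hg
            simpa [mul_assoc] using this
    obtain ⟨h, hh, hn⟩ := this (q + 1)
    exact ⟨h, hh, fun i hi => hn i (by omega)⟩)
    (by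
    intro q p A h hh hD i hi
    exact hher i p A h hh (hD i hi)) d B
  let O : Set RS := {g | ∃ (i q p : ℕ) (w : RS), d ≤ q ∧ i ≤ q ∧ w ∈ Sw q p ∧
    (∀ j, j < q → w j = g j) ∧ ∀ g' ∈ K p, g' * w * (h * B) ∈ X i}
  have hOX : ∀ g : RS, g ∈ O ↔ g * (h * B) ∈ ⋃ i, X i := by
    intro g
    constructor
    · rintro ⟨i, q, p, w, hq, hi, hw, hj, hg⟩
      obtain ⟨g', hg', hgg⟩ := hFac q p w hw g fun j hj' => (hj j hj').symm
      rw [hgg]
      exact mem_iUnion.mpr ⟨i, hg g' hg'⟩
    · intro hg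
      obtain ⟨i, hi⟩ := mem_iUnion.mp hg
      obtain ⟨p, hp, w, hw, hj⟩ := hC g (max i d)
      refine ⟨i, max i d, p, w, le_max_right _ _, le_max_left _ _, hw, hj, ?_⟩
      obtain ⟨g', hg', hgg⟩ := hFac (max i d) p w hw g fun j hj' => (hj j hj').symm
      rcases hdec (max i d) (le_max_right _ _) p w hw i (le_max_left _ _) with h1 | h1
      · intro g'' hg''
        have := h1 g'' hg''
        simpa [mul_assoc] using this
      · exfalso
        apply h1 g' hg'
        rw [hgg] at hi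
        simpa [mul_assoc] using hi
  obtain ⟨h2, hh2, hdec2⟩ := hO d O (by
    rintro g ⟨i, q, p, w, hq, hi, hw, hj, hg⟩
    exact ⟨q, fun g' hg' => ⟨i, q, p, w, hq, hi, hw, fun j hj' => (hj j hj').trans (hg' j hj').symm,
      hg⟩⟩)
  refine ⟨h2 * h, K_mul hh2 hh, ?_⟩
  rcases hdec2 with h3 | h3
  · left
    intro g hg
    have := (hOX (g * h2)).mp (h3 g hg)
    simpa only [mul_assoc] using this
  · right
    intro g hg hc
    apply h3 g hg
    rw [hOX]
    simpa only [mul_assoc] using hc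

theorem t_borel : S_CUT → S_FAC → S_FUS → S_OPEN → S_BOREL := by
  intro hC hFac hFus hO X hX
  refine MeasurableSpace.generateFrom_induction {s : Set RS | IsOpen s} (fun s _ => CR s)
    (fun t ht _ => cr_open hO ht) ?_ (fun t _ ht => cr_compl ht)
    (fun s _ hs => cr_iUnion hC hFac hFus hO s hs) X hX
  intro d B
  exact ⟨1, one_mem_K d, Or.inr fun g _ hc => hc⟩

end Pool.Agent.N263.CS
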